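import Mathlib
import Pool.Agent.V1168.BB.Soule

/-!
# The conjecture of Bloch and Soulé for products of abelian varieties of almost all slope types of all CM
fields with arbitrary schemes over finite fields

Let `K i` (`i` in a finite set) be CM fields of degree `2 g i`. Nothing is assumed about their Galois
groups. They are pairwise independent: for `i ≠ k` and all complex embeddings `φ` of `K i` and `ψ` of
`K k` some automorphism of `ℂ` is the identity on `φ (K i)` and the complex conjugation on `ψ (K k)`
(this is no condition if there is only one field). We fix an isomorphism `ν` of the algebraic closure
of `ℚ_p` with `ℂ`; it defines a `p`-adic valuation of `ℂ`, with the value one at `p`. Let `M i` be a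
function with nonzero integral values, all of which divide `n i`, on the complex embeddings of
`K i`, invariant under complex conjugation. A CM type `Φ i` of `K i` (a choice of one element out of
each complex conjugate pair of embeddings; there are `2 ^ (g i)` types), `M i` and a real number
`κ ≠ 0` prescribe the slopes `(a + κ M) / 2` (at the embeddings in `Φ i`) and `(a - κ M) / 2` (outside
of `Φ i`) of a Weil number for `p ^ a` in `K i` (`HasType`). If `p` splits completely in `K i` then,
by Honda and Tate, all slopes with rational values between `0` and `a` that are symmetric in this way
occur for abelian varieties over finite fields. The case `M = 1`, `κ = a` is the case of ordinary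
abelian varieties; the assumption on `M` says that `a / 2` is not a slope. Slopes are rational, so
integral weights `M` are no restriction.

There are `2 ^ (∑ i, g i)` families of CM types `Φ i` of the fields `K i`. A family is exceptional
(`exceptionalFamilies ν K M`) if the following statement (`Holds`) is false for it. Let `π i` be Weil
numbers for `q = p ^ a` that generate the fields `K i` and have the slope types `Φ i`, `M i`, and let
`f i` be monic polynomials whose complex roots are conjugates of `π i` (`IsPolyOf`), for instance the
characteristic polynomials of Frobenius of the abelian varieties in the isogeny classes of the `π i`
over the field with `q` elements. Let `A` be an abelian variety over the field with `Q = q ^ s`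
elements which is isogenous to a product of powers of abelian varieties coming from the field with
`q` elements, with characteristic polynomials `f i`, and let `U` be
**any** scheme of finite type over the field with `Q` elements (singular, not proper, ...), of
dimension `d`, which is unrelated to the fields `K i` in the following sense (`SchemeUnrelated`): the
zeros and poles `s` of the zeta function of `U` are such that `Q^s` is unrelated to the fields `K i`
(the numbers `Q^s` are Frobenius eigenvalues on the cohomology with compact supports of `U`); and the
Frobenius endomorphism of `U` satisfies on each group `CH^r(A × U, i)` a nonzero rational polynomial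
with unrelated roots. (This is true for instance if `U` is smooth projective with a finite-dimensional
motive, in the sense of Kimura and O'Sullivan, and its Frobenius eigenvalues are unrelated to the
fields `K i`, and for the schemes obtained from these by localization.)

A complex number `ρ ≠ 0` is unrelated to the fields `K i` (`Unrelated`) if a function `n` on the
complex embeddings of `K i` with `n (conj φ) = - n φ` which is invariant under all automorphisms of
`ℂ` that fix a power of `ρ` is zero. This is so if for each embedding `ψ` of `K i` some automorphism
which fixes a power of `ρ` is the complex conjugation on `ψ (K i)`: for instance, if a power of `ρ`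
lies in a field linearly disjoint from the normal closures of the `K i`, or in a totally real field.
It is also so if the degree of `ρ` is less than twice the dimension of each nonzero space of
functions `n` stable under all automorphisms of `ℂ` (less than `2 g i` if this representation is
irreducible, as it is for generic CM fields).

Then there are products `D t` of `c t` divisor classes on `A`, finitely many (independent of `U`), such
that, for rational coefficients,

1. every element of `CH^r(A × U, i)` is in a unique way the sum of the products of the `D t` with
   elements of `CH^(r - c t)(U, i)`;
2. the order at `s = dim A + d - r` of the zeta function of `A × U` is the sum over `t` of the orders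
   at `s = d - (r - c t)` of the zeta function of `U`;
3. **the formula of Bloch and Soulé (with the finiteness of the ranks) holds for `A × U` and all
   `r ≤ n` if and only if it holds for `U` and all `r ≤ n`, for all `n`.**

So the conjecture for `A × U` reduces to the one for `U`. For instance it holds for `A` (`U` a point),
and for the products of `A` with cellular schemes and with (unrelated) curves.

The framework: the Chow ring and the ring of correspondences of `A`, with rational coefficients, and
the cohomology of `A` with complex coefficients (we choose an isomorphism of the algebraic closure of
`ℚ_ℓ` with `ℂ`), with the formal properties and the theorems of Tate on divisors and of Kimura on the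
nilpotence of homologically trivial correspondences (`AbelianData`, `IsAbelian`); the groups
`T^i(U, j) = CH^j(U, 2 j - i)` and `T^i(A × U, j) = CH^j(A × U, 2 j - i)` (indexed by codimension, as in
the question), with the products with classes on `A`, the push-forward from `A × U` to `U`, the operation
of the correspondences from `A` to `A` and the Frobenius endomorphism of `U` (`RelData`, `IsRel`); the
Frobenius endomorphism of `A × U` acts on the groups of codimension `j` as multiplication by `Q ^ j`
(`IsPure`; for homology theories the pull-back by the finite flat Frobenius of `A` and the inverse of
the push-forward by the one of `U` are meant, up to the power of `Q` given by the dimension). The zeta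
functions are the Euler products over the closed points (`PointData`), and the number of points of
`A × U` over the field with `Q ^ m` elements is the product of those of `U` and `A`, which for `A` is
given by the trace formula (`IsProductPoints`). `IsContinuation` says that `Λ` is a meromorphic
continuation of the Euler product, and the order of the zeta function at a point is the one of any
such `Λ`.

The theorem bounds the number of the exceptional families: it is at most
`2 ^ (∑ i, g i) * ∑ i, C * (n i) ^ 2 * rate (K i) (g i) (q i)`, with an absolute constant `C`. Here
`q i` is any prime factor of `g i` (or `q i = 1`), and `rate K g q` is `(1 + log (2 g)) ^ 16` times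
the smaller of the numbers `W (K) / √g` and `√g / q`; the second part of the theorem
(`WeightEstimate`) is `W (K) ≤ N ^ 2 * D ^ (1 / 4)`, where `N` is the number of the CM subfields of `K`
(with `K`) and `D` is the largest degree of a CM subfield of `K` that is normal over `ℚ` with a
nonabelian Galois group (`D = 1` if there are none). So the exceptional types are a proportion
`O (n ^ 2 * g ^ (-1 / 4) * (log g) ^ 16)` of all types of all CM fields with a bounded number of CM
subfields. The number `W (K)` (`subfieldWeight K`) is the sum over the fields of definition `F` of the
isotypic components of the space of the odd functions on the complex embeddings of `K` of the number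
of the CM subfields of `F`, multiplied by `[F : ℚ] ^ (1 / 4)` if `F` is normal over `ℚ` and its Galois
group is not abelian.

The proof. The bound for the number of the degenerate types is the one of the starting files
(`AllCMFields`, MP_e12fcd_ag, and `Y1.CT.ncard_of_unrel`): if the types are not degenerate, then a
product of `ρ` and of some eigenvalues of `A`, no two of them complex conjugate, is not a power of `q`,
up to a root of unity, for all unrelated `ρ`.
If a Weil number `α` of the cohomology of `A` and an unrelated number `ρ` have the product `Q ^ i`, then
`α = Q ^ k` and `α` is a product of pairs of complex conjugate numbers, so that the eigenvectors of the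
Frobenius endomorphism of `A` for `α` are products of divisor classes. The zeta function of `A × U` is
the product of the translates of the one of `U` by the logarithms of the eigenvalues `α` on
`H^a(A)`, with the exponents `(-1)^a`; a translate has a zero or a pole at an integer `s = i` only if
`Q ^ i / α` is unrelated, so that `α = Q ^ k`, and the multiplicity of `Q ^ k` is the number of the `t`
with `c t = k`, or with `dim A - c t = k` (the `D t` have a dual system `E t` for the intersection
pairing). For the higher Chow groups, let `p` be the projector given by the `D t`, `E t`. For a
suitable polynomial `P` the correspondence `(1 - p) P (F)` is homologically trivial, hence nilpotent,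
and `P (F)` is invertible on `CH^r(A × U, i)`, since there the Frobenius endomorphism `F` of `A`
satisfies the polynomial with the roots `Q ^ r / ρ`. So `p` acts as the identity. The system of
equations between the Euler characteristics and the orders is triangular, with a nonzero diagonal,
whence (3).
-/

set_option autoImplicit false

namespace Pool.Agent.Results.MP_666bea_ag.AllCMTypesTimes

open NumberField Module Pool.Agent.H204R3.CM Pool.Agent.H977R3.CM Pool.Agent.TH170
  Pool.Agent.Y1.KN Pool.Agent.Y1.CT Pool.Agent.V1168.BB

/-- The reduction of the conjecture of Bloch and Soulé for `A × U` to the one for `U` holds for all
abelian varieties `A` whose Frobenius eigenvalues are powers of conjugates of Weil numbers with the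
slope types `Φ i`, `M i`, and all `U` unrelated to the fields `K i`. -/
def Holds {p : ℕ} [Fact p.Prime] (ν : PadicAlgCl p ≃+* ℂ) {I : Type} (K : I → Type)
    [∀ i, Field (K i)] [∀ i, NumberField (K i)] [∀ i, IsCMField (K i)]
    (M : ∀ i, (K i →+* ℂ) → ℤ) (Φ : ∀ i, Set (K i →+* ℂ)) : Prop :=
  ForAllTypes ν K M (SouleTimes K) Φ

/-- The exceptional families of CM types. -/
def exceptionalFamilies {p : ℕ} [Fact p.Prime] (ν : PadicAlgCl p ≃+* ℂ) {I : Type} (K : I → Type)
    [∀ i, Field (K i)] [∀ i, NumberField (K i)] [∀ i, IsCMField (K i)]
    (M : ∀ i, (K i →+* ℂ) → ℤ) : Set (∀ i, Set (K i →+* ℂ)) :=
  {Φ | (∀ i, IsCMType (Φ i)) ∧ ¬ Holds ν K M Φ}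

/-- **The formula of Bloch and Soulé for `A × U` and all `r ≤ n` is equivalent to the one for `U` and all
`r ≤ n`, for the abelian varieties `A` of almost all slope types of all CM fields and all unrelated
schemes `U` of finite type over finite fields.** -/
theorem result :
    (∃ C : ℝ, 0 ≤ C ∧ ∀ (p : ℕ) [Fact p.Prime] (ν : PadicAlgCl p ≃+* ℂ) (I : Type) [Fintype I]
      (K : I → Type) [∀ i, Field (K i)] [∀ i, NumberField (K i)] [∀ i, IsCMField (K i)]
      (M : ∀ i, (K i →+* ℂ) → ℤ) (n g q : I → ℕ), PairwiseIndep K →
      (∀ i φ, M i (ComplexEmbedding.conjugate φ) = M i φ) → (∀ i, n i ≠ 0) →
      (∀ i φ, M i φ ∣ (n i : ℤ)) → (∀ i, finrank ℚ (K i) = 2 * g i) →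
      (∀ i, q i ∣ g i ∧ (q i = 1 ∨ (q i).Prime)) →
      ((exceptionalFamilies ν K M).ncard : ℝ) ≤
        2 ^ (∑ i, g i) * ∑ i, C * (n i : ℝ) ^ 2 * rate (K i) (g i) (q i)) ∧
    WeightEstimate := by
  obtain ⟨C, hC0, hC⟩ := ncard_of_unrel
  refine ⟨⟨C, hC0, ?_⟩, weight_estimate_holds⟩
  intro p _ ν I _ K _ _ _ M n g q hind hM hn hMn hg hq
  exact hC p ν I K M n g q hind hM hn hMn hg hq _ fun Q f hQ hR => souleTimes hQ hR

end Pool.Agent.Results.MP_666bea_ag.AllCMTypesTimes
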