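import Mathlib
import Pool.Agent.V1168.EF.Soule
import Pool.Agent.V1168.EF.Rel

/-!
# The conjecture of Bloch and Soulé for the products of arbitrary schemes over finite fields with abelian
varieties: the exceptional factors have small dimension

Let `K i` (`i` in a set `I`, which may be **infinite**) be CM fields with pair flips (`PairFlips`): for
any two complex embeddings `φ` of `K i` and `ψ` of `K k` (with `i = k` or not) which are neither equal
nor complex conjugate, some automorphism of `ℂ` is the identity on `φ (K i)` and the complex conjugation
on `ψ (K k)`. One CM field `K` of degree `2 g` has this property if the Galois group of its normal
closure is the largest possible one (of order `2 ^ g g!`), or contains, for each pair of complex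
conjugate embeddings, an element which exchanges them and fixes all other embeddings, or contains all
the automorphisms that exchange two pairs in this sense (`g > 2`); several such fields with linearly
disjoint normal closures have it together (for example there are infinite families of imaginary
quadratic fields). We fix an isomorphism `ν` of the algebraic closure of `ℚ_p` with `ℂ`; it defines a
`p`-adic valuation `v` of `ℂ` with `v p = 1`. Let `π i` be a Weil number for `q = p ^ a` in `K i` whose
slope vector, the function `2 v (φ π) - a` on the complex embeddings `φ` (`slopeVector`), is not zero
(there are no other conditions on the slopes).

For finite subsets `J` of `I` let `f i`, `i` in `J`, be monic polynomials whose complex roots are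
conjugates of `π i` (`IsPolyOf`), for instance the characteristic polynomials of Frobenius of the abelian
varieties in the isogeny classes of the `π i` over the field with `q` elements. Let `A` be an abelian
variety over the field with `Q = q ^ s` elements which is isogenous to a product of powers of abelian
varieties coming from the field with `q` elements, with characteristic polynomials `f i`, `i` in `J`
(`IsAbelian`).

Let `Ω` be a finite set of complex numbers, stable under the automorphisms of `ℂ`, whose elements are
nonzero and lie in CM fields or in totally real fields (`IsStable`). A number `ρ` is generated by `Ω`
(`Generated p Ω`) if it is not zero and a power of it is a product of powers of elements of `Ω` and of a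
power of `p`. Let `U` be
**any** scheme of finite type over the field with `Q` elements (singular, not proper, ...), of
dimension `d`, whose Frobenius numbers are generated by `Ω` in the following sense (`SchemeGenerated`): the
zeros and poles `s` of the zeta function of `U` are such that `Q^s` is generated by `Ω`
(the numbers `Q^s` are Frobenius eigenvalues on the cohomology with compact supports of `U`); and the
Frobenius endomorphism of `U` satisfies on each group `CH^r(A × U, i)` a nonzero rational polynomial
with roots generated by `Ω`. (This is true for instance if `U` is smooth projective with a finite-dimensional
motive, in the sense of Kimura and O'Sullivan, and its Frobenius eigenvalues are generated by `Ω`, and for the schemes obtained from these by localization.)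

**The theorem: there is a finite subset `S` of `I` with `∑ [K i : ℚ] ≤ |Ω|`, the sum over `i` in `S`,
such that for all finite sets `J` disjoint from `S`, all `f i`, `s`, `A` and `U` as above the
statement below is true.** The set `S` depends only on `Ω` and the `π i`, and not on the powers of
the abelian varieties, on the finite field or on `U`. The Frobenius eigenvalues on the cohomology of
varieties are Weil numbers, by Deligne, and so they form a set like `Ω`; for varieties dominated by
products of curves or by abelian varieties the eigenvalues on `H^1` of the factors are sufficient.
So if `B i` are the simple abelian varieties of the `π i` (of dimension `[K i : ℚ] / 2`, for instance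
if they are ordinary), **the exceptional ones have together at most the dimension `|Ω| / 2`,
whatever the abelian varieties are.** The bound is sharp: for `B 1 × ⋯ × B r` (and its powers) `Ω` has
`2 ∑ dim B i` elements, and all the `B i` are exceptional: there are divisor classes in
`H^1(B i) ⊗ H^1(B 1 × ⋯ × B r)`. My `AllCMTypesTimes` is about the case that the Frobenius eigenvalues
are unrelated to the fields `K i`. **Here they are arbitrary**: they may generate the same fields `K i`,
or fields containing them.

Then there are products `D t` of `c t` divisor classes on `A`, finitely many (independent of `U`), such
that, for rational coefficients,

1. every element of `CH^r(A × U, i)` is in a unique way the sum of the products of the `D t` with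
   elements of `CH^(r - c t)(U, i)`;
2. the order at `s = dim A + d - r` of the zeta function of `A × U` is the sum over `t` of the orders
   at `s = d - (r - c t)` of the zeta function of `U`;
3. **the formula of Bloch and Soulé (with the finiteness of the ranks) holds for `A × U` and all
   `r ≤ n` if and only if it holds for `U` and all `r ≤ n`, for all `n`.**

So the conjecture for `A × U` reduces to the one for `U`. For instance it holds for `A` (`U` a point),
and for the products of `A` with cellular schemes and with curves.

The framework: the Chow ring and the ring of correspondences of `A`, with rational coefficients, and
the cohomology of `A` with complex coefficients (we choose an isomorphism of the algebraic closure of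
`ℚ_ℓ` with `ℂ`), with the formal properties and the theorems of Tate on divisors and of Kimura on the
nilpotence of homologically trivial correspondences (`AbelianData`, `IsAbelian`); the groups
`T^i(U, j) = CH^j(U, 2 j - i)` and `T^i(A × U, j) = CH^j(A × U, 2 j - i)` (indexed by codimension, as in
the question), with the products with classes on `A`, the push-forward from `A × U` to `U`, the operation
of the correspondences from `A` to `A` and the Frobenius endomorphism of `U` (`RelData`, `IsRel`); the
Frobenius endomorphism of `A × U` acts on the groups of codimension `j` as multiplication by `Q ^ j`
(`IsPure`; for homology theories the pull-back by the finite flat Frobenius of `A` and the inverse of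
the push-forward by the one of `U` are meant, up to the power of `Q` given by the dimension). The zeta
functions are the Euler products over the closed points (`PointData`), and the number of points of
`A × U` over the field with `Q ^ m` elements is the product of those of `U` and `A`, which for `A` is
given by the trace formula (`IsProductPoints`). `IsContinuation` says that `Λ` is a meromorphic
continuation of the Euler product, and the order of the zeta function at a point is the one of any
such `Λ`.

The proof. Let `x i` be the slope vectors of the `π i`. If a product of a number `ρ` generated by `Ω`
and of roots of the `f i`, no two of them complex conjugate, is a power of `q` up to a root of unity,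
then, computing valuations, there are odd functions `n i` on the embeddings of the `K i`, not all zero,
such that the function `σ ↦ ∑ n i φ * x i (σ φ)` of the automorphisms `σ` of `ℂ` (the sum over all `i` and
all embeddings `φ`) is in the space `F` spanned by the functions `σ ↦ v (σ β) - v (conj (σ β))`, `β` in
`Ω`. This space is stable under translations. So we can average over the automorphisms which fix a
given embedding `φ₀` of `K i`: by the pair flips the average of an odd function is zero except at `φ₀`
and its conjugate, so that the function `σ ↦ x i (σ φ₀)` is in `F` if `n i φ₀` is not zero, and then the
same is true for all embeddings of this field `K i` (`EF.orb_mem`). Let `S` be the set of all `i` such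
that these functions are in `F`. Again by the pair flips, the functions `σ ↦ x i (σ φ)`, for all `i` and
one `φ` out of each complex conjugate pair, are linearly independent. As the dimension of `F` is at most
`|Ω| / 2` (conjugate `β` give opposite functions), `∑ [K i : ℚ] / 2`, the sum over `S`, is at most
`|Ω| / 2` (`EF.exists_exceptional`), and outside of `S` there are no such relations
(`EF.exactPair_of`).
If a Weil number `α` of the cohomology of `A` and a number `ρ` generated by `Ω` have the product `Q ^ i`, then
`α = Q ^ k` and `α` is a product of pairs of complex conjugate numbers, so that the eigenvectors of the
Frobenius endomorphism of `A` for `α` are products of divisor classes. The zeta function of `A × U` is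
the product of the translates of the one of `U` by the logarithms of the eigenvalues `α` on
`H^a(A)`, with the exponents `(-1)^a`; a translate has a zero or a pole at an integer `s = i` only if
`Q ^ i / α` is generated by `Ω`, so that `α = Q ^ k`, and the multiplicity of `Q ^ k` is the number of the `t`
with `c t = k`, or with `dim A - c t = k` (the `D t` have a dual system `E t` for the intersection
pairing). For the higher Chow groups, let `p` be the projector given by the `D t`, `E t`. For a
suitable polynomial `P` the correspondence `(1 - p) P (F)` is homologically trivial, hence nilpotent,
and `P (F)` is invertible on `CH^r(A × U, i)`, since there the Frobenius endomorphism `F` of `A`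
satisfies the polynomial with the roots `Q ^ r / ρ`. So `p` acts as the identity. The system of
equations between the Euler characteristics and the orders is triangular, with a nonzero diagonal,
whence (3).
-/

set_option autoImplicit false

namespace Pool.Agent.Results.MP_666bea_ag.EveryVarietyTimes

open NumberField Pool.Agent.V1168.EF
open Pool.Agent.V1168.EV (PairFlips slopeVector)

/-- **The formula of Bloch and Soulé for `A × U` and all `r ≤ n` is equivalent to the one for `U` and all
`r ≤ n`, for all `U`
with Frobenius eigenvalues generated by the stable finite set `Ω` and all abelian varieties `A` given
by Weil numbers in a family of CM fields with pair flips, without factors in an exceptional set `S`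
with `∑ [K i : ℚ] ≤ |Ω|`.** -/
theorem result {p : ℕ} [Fact p.Prime] (ν : PadicAlgCl p ≃+* ℂ) {I : Type}
    (K : I → Type) [∀ i, Field (K i)] [∀ i, NumberField (K i)] [∀ i, IsCMField (K i)]
    (hK : PairFlips K) (a : ℕ) (ha : 0 < a) (π : ∀ i, K i)
    (hπ : ∀ i, π i * IsCMField.complexConj (K i) (π i) = (p : K i) ^ a)
    (hs : ∀ i, ∃ φ, slopeVector ν a (π i) φ ≠ 0) (Ω : Finset ℂ) (hΩ : IsStable Ω) :
    ∃ S : Finset I, ∑ i ∈ S, Module.finrank ℚ (K i) ≤ Ω.card ∧
      ForAllPolys π (p ^ a) S (fun _ q f => SouleTimes p Ω q f) := by
  obtain ⟨S, hS, h⟩ := exists_factors ν hK ha hπ hs hΩ
  exact ⟨S, hS, h _ fun J q f hq hR => souleTimes hq hR⟩

end Pool.Agent.Results.MP_666bea_ag.EveryVarietyTimes
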