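import Mathlib
import Pool.Agent.V1168.EV.Soule
import Pool.Agent.V1168.EV.Rel

/-!
# The conjecture of Bloch and Soulé for the products of arbitrary schemes over finite fields with abelian
varieties outside of finitely many lines of slope vectors

Let `K i` (`i` in a finite set) be CM fields with pair flips (`PairFlips`): for any two complex
embeddings `φ` of `K i` and `ψ` of `K k` (with `i = k` or not) which are neither equal nor complex
conjugate, some automorphism of `ℂ` is the identity on `φ (K i)` and the complex conjugation on
`ψ (K k)`. One CM field `K` of degree `2 g` has this property if the Galois group of its normal closure
is the largest possible one (of order `2 ^ g g!`), or contains, for each pair of complex conjugate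
embeddings, an element which exchanges them and fixes all other embeddings, or contains all the
automorphisms that exchange two pairs in this sense (`g > 2`); several such fields with linearly
disjoint normal closures have it together. We fix an isomorphism `ν` of the algebraic closure of `ℚ_p`
with `ℂ`; it defines a `p`-adic valuation `v` of `ℂ` with `v p = 1`. The slope vector of a Weil number
`π` for `p ^ a` in `K i` is the function `2 v (φ π) - a` on the complex embeddings `φ` of `K i`
(`slopeVector`); it is odd: its values at conjugate embeddings are opposite.

Let `π i` be Weil numbers for `q = p ^ a` in `K i` with nonzero slope vectors, and let `f i` be monic
polynomials whose complex roots are conjugates of `π i` (`IsPolyOf`), for instance the characteristic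
polynomials of Frobenius of the abelian varieties in the isogeny classes of the `π i` over the field
with `q` elements. Let `A` be an abelian variety over the field with `Q = q ^ s` elements which is
isogenous to a product of powers of abelian varieties coming from the field with `q` elements, with
characteristic polynomials `f i` (`IsAbelian`).

A number `ρ` comes from the finite set `Ω` of complex numbers (`From p Ω`) if it is not zero and a power
of it is the product of a power of a conjugate of an element of `Ω`, or of `1`, and of a power of `p`.
(All Frobenius eigenvalues of a variety come from such a set `Ω`: take one root of each irreducible
factor of the characteristic polynomials.)

Let `U` be
**any** scheme of finite type over the field with `Q` elements (singular, not proper, ...), of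
dimension `d`, whose Frobenius numbers come from `Ω` in the following sense (`SchemeFrom`): the
zeros and poles `s` of the zeta function of `U` are such that `Q^s` comes from `Ω`
(the numbers `Q^s` are Frobenius eigenvalues on the cohomology with compact supports of `U`); and the
Frobenius endomorphism of `U` satisfies on each group `CH^r(A × U, i)` a nonzero rational polynomial
with roots from `Ω`. (This is true for instance if `U` is smooth projective with a finite-dimensional
motive, in the sense of Kimura and O'Sullivan, and its Frobenius eigenvalues come from `Ω`, and for the schemes obtained from these by localization.)

**The theorem: there is a set `E` of at most `|Ω|` lines, each of them in the space of the functions on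
the complex embeddings of one of the fields `K i`, such that for all `a`, all `π i` whose slope vectors
are not on the lines in `E`, all `f i`, `s`, `A` and all `U` as above the statement below is true.**
The lines depend only on `ν`, the fields and `Ω`, and not on the Weil numbers, on the powers of the
abelian varieties, on the finite field or on `U`. So for one field `K` and a given `U` all the Weil
numbers in `K` are allowed, except those whose slope vector is a multiple of one of at most `|Ω|`
vectors in the `g`-dimensional space of the odd functions; for instance, at most `2 |Ω|` of the `2 ^ g`
slope types of the ordinary abelian varieties with complex multiplication by `K` are exceptional for
`U`. (Exceptions to the Künneth formula behind the theorem are necessary: if `U = A` then there are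
divisor classes in `H^1(A) ⊗ H^1(U)`.)

My `AllCMTypesTimes` is about the case that the Frobenius eigenvalues are unrelated to the fields
`K i`. **Here they are arbitrary**: they may generate the same fields `K i`, or fields containing them. My
`EveryVarietyTimes` is about **one** family of Weil numbers `π i` (possibly in infinitely many fields),
and bounds the total degree of the fields of its exceptional members; for one field it only says
something if its degree is bigger than `|Ω|`. Here the fields are given, **all the Weil numbers in them
are considered at the same time**, the exceptions are on at most `|Ω|` lines, and `Ω` is any finite set
(not stable under the automorphisms, one of each set of conjugates is sufficient, so that `Ω` is in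
general much smaller; and its elements need not be in CM fields).

Then there are products `D t` of `c t` divisor classes on `A`, finitely many (independent of `U`), such
that, for rational coefficients,

1. every element of `CH^r(A × U, i)` is in a unique way the sum of the products of the `D t` with
   elements of `CH^(r - c t)(U, i)`;
2. the order at `s = dim A + d - r` of the zeta function of `A × U` is the sum over `t` of the orders
   at `s = d - (r - c t)` of the zeta function of `U`;
3. **the formula of Bloch and Soulé (with the finiteness of the ranks) holds for `A × U` and all
   `r ≤ n` if and only if it holds for `U` and all `r ≤ n`, for all `n`.**

So the conjecture for `A × U` reduces to the one for `U`. For instance it holds for `A` (`U` a point),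
and for the products of `A` with cellular schemes and with curves.

The framework: the Chow ring and the ring of correspondences of `A`, with rational coefficients, and
the cohomology of `A` with complex coefficients (we choose an isomorphism of the algebraic closure of
`ℚ_ℓ` with `ℂ`), with the formal properties and the theorems of Tate on divisors and of Kimura on the
nilpotence of homologically trivial correspondences (`AbelianData`, `IsAbelian`); the groups
`T^i(U, j) = CH^j(U, 2 j - i)` and `T^i(A × U, j) = CH^j(A × U, 2 j - i)` (indexed by codimension, as in
the question), with the products with classes on `A`, the push-forward from `A × U` to `U`, the operation
of the correspondences from `A` to `A` and the Frobenius endomorphism of `U` (`RelData`, `IsRel`); the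
Frobenius endomorphism of `A × U` acts on the groups of codimension `j` as multiplication by `Q ^ j`
(`IsPure`; for homology theories the pull-back by the finite flat Frobenius of `A` and the inverse of
the push-forward by the one of `U` are meant, up to the power of `Q` given by the dimension). The zeta
functions are the Euler products over the closed points (`PointData`), and the number of points of
`A × U` over the field with `Q ^ m` elements is the product of those of `U` and `A`, which for `A` is
given by the trace formula (`IsProductPoints`). `IsContinuation` says that `Λ` is a meromorphic
continuation of the Euler product, and the order of the zeta function at a point is the one of any
such `Λ`.

The proof. Let `x i` be the slope vectors of the `π i`, and let `ρ` be a number that comes from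
`β ∈ Ω`. If a product of `ρ` and of roots of the `f i`, no two of them complex conjugate, is a power of
`q` up to a root of unity, then, computing valuations, there are odd functions `n i`, not all zero, and
constants with `∑ n i φ * x i (σ φ) = c₁ v (σ β) + c₂` for all automorphisms `σ` of `ℂ` (the sum over all `i`
and all embeddings `φ`; the automorphism in the definition of `From` is absorbed by `n`). Take the odd
part, and average over the automorphisms which fix a given embedding `φ₀` of `K i`: by the pair flips
the average of an odd function is zero except at `φ₀` and its conjugate, so that
`n i (σ⁻¹ φ₀) * x i φ₀` is determined by `c₁` and `β` (`EV.key`). For `β = 1` all these numbers are
zero, and there are no relations, as `x i` is not zero. In general it follows that, for each `i` with `n i` not zero, `x i` is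
determined up to a factor by `β`: this is the exceptional line of `β` (`EV.exists_lines`). (The odd
functions on the embeddings of the `K i` are absolutely irreducible representations, not isomorphic
for different `i`.) Hence there are no such relations outside of the lines (`EV.exactPair_of`).
If a Weil number `α` of the cohomology of `A` and a number `ρ` from `Ω` have the product `Q ^ i`, then
`α = Q ^ k` and `α` is a product of pairs of complex conjugate numbers, so that the eigenvectors of the
Frobenius endomorphism of `A` for `α` are products of divisor classes. The zeta function of `A × U` is
the product of the translates of the one of `U` by the logarithms of the eigenvalues `α` on
`H^a(A)`, with the exponents `(-1)^a`; a translate has a zero or a pole at an integer `s = i` only if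
`Q ^ i / α` comes from `Ω`, so that `α = Q ^ k`, and the multiplicity of `Q ^ k` is the number of the `t`
with `c t = k`, or with `dim A - c t = k` (the `D t` have a dual system `E t` for the intersection
pairing). For the higher Chow groups, let `p` be the projector given by the `D t`, `E t`. For a
suitable polynomial `P` the correspondence `(1 - p) P (F)` is homologically trivial, hence nilpotent,
and `P (F)` is invertible on `CH^r(A × U, i)`, since there the Frobenius endomorphism `F` of `A`
satisfies the polynomial with the roots `Q ^ r / ρ`. So `p` acts as the identity. The system of
equations between the Euler characteristics and the orders is triangular, with a nonzero diagonal,
whence (3).
-/

set_option autoImplicit false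

namespace Pool.Agent.Results.MP_666bea_ag.ExceptionalSlopeLines

open NumberField Pool.Agent.V1168.EV

/-- **The formula of Bloch and Soulé for `A × U` and all `r ≤ n` is equivalent to the one for `U` and all
`r ≤ n`, for all `U`
with Frobenius eigenvalues from the finite set `Ω` and all abelian varieties `A` given by Weil numbers
in the CM fields `K i` (with pair flips) with slope vectors outside of at most `|Ω|` lines.** -/
theorem result {p : ℕ} [Fact p.Prime] (ν : PadicAlgCl p ≃+* ℂ) {I : Type} [Finite I]
    (K : I → Type) [∀ i, Field (K i)] [∀ i, NumberField (K i)] [∀ i, IsCMField (K i)]
    (hK : PairFlips K) (Ω : Finset ℂ) :
    ∃ E : Finset (Σ i, ((K i →+* ℂ) → ℝ)), E.card ≤ Ω.card ∧
      ForAllOutside ν K (SouleTimes p Ω) E := by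
  obtain ⟨E, hE, h⟩ := exists_lines_forall ν K hK Ω
  exact ⟨E, hE, h _ fun q f hq hR => souleTimes hq hR⟩

end Pool.Agent.Results.MP_666bea_ag.ExceptionalSlopeLines
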