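import Pool.Agent.V1194.LP.Zeta

/-!
# The orders of `ζ_X(s)` at all integers from the closed points of `X`

Let `X` be a scheme of finite type over `ℤ` of dimension `d ≥ 1`, with the zeta function
`ζ_X(s) = ∏_x (1 - N(x)^{-s})⁻¹`, absolutely convergent for `Re s > d` (Serre), and suppose that `ζ_X` has a
meromorphic continuation to a neighbourhood of the real half line `s ≤ d` (this is part of Q1). The question Q2
is whether for every integer `r` the order of `ζ_X` at `s = d - r` is `-∑ (-1)^i rank CH^r(X, i)`. We show that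
it is a question on the numbers `N(x)` alone: for any real `γ > π/2` and any integer `n` let

`V_n(Y) = ∑_{x closed} ∑_{k ≥ 1} N(x)^{-kn}/k · cos(γu)/Γ(1 + u)`,  `u = k log N(x) / log Y`.

(Without the weights `cos(γu)/Γ(1 + u)`, which tend to `1` for `Y → ∞`, this would be the divergent series for
`log ζ_X(n)`.) Then

1. for all integers `n`: `V_n(Y)` converges absolutely and
   `V_n(Y) = log |A_n| - m_n (log log Y - λ_γ) + O(1/log Y)`, where `m_n` is the order and `A_n` the leading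
   coefficient of `ζ_X` at `s = n`, with an explicit constant `λ_γ`;
2. for all integers `n`, `ρ`: `m_n = ρ`, `m_n ≥ ρ`, `m_n ≤ ρ` if and only if `V_n(Y) + ρ log log Y` is
   bounded, bounded above, bounded below for `Y → ∞`;
3. for every sequence `(a_r)` of integers (in Q2: `a_r = ∑ (-1)^i rank CH^r(X, i)`):
   `-ord_{s = d-r} ζ_X(s) = a_r` for all `r` if and only if `V_{d-r}(Y) - a_r log log Y` is bounded for
   `Y → ∞`, for all `r`.

Nothing is assumed on the zeros and poles of `ζ_X`.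
-/

set_option autoImplicit false

namespace Pool.Agent.Results.MP_666bea_ag.OrdersFromPoints

open Filter Topology Set AlgebraicGeometry

/-- The closed points of `X`. -/
abbrev Pt (X : Scheme.{0}) : Type := {x : X // IsClosed ({x} : Set X)}

/-- `N(x)`, the number of elements of the residue field of the closed point `x`. -/
noncomputable def nrm (X : Scheme.{0}) (x : Pt X) : ℝ := (Nat.card (X.residueField x.1) : ℝ)

/-- `d ≥ 1`, the closed points of `X` have finite residue fields, and the zeta function of `X` converges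
absolutely for `Re s > d`. By Serre this is so for every scheme `X` of finite type over `ℤ` of dimension
`d ≥ 1`. -/
structure Converges (X : Scheme.{0}) (d : ℕ) : Prop where
  one_le : 1 ≤ d
  two_le : ∀ x : Pt X, 2 ≤ nrm X x
  summable : ∀ σ : ℝ, (d : ℝ) < σ → Summable fun x : Pt X => nrm X x ^ (-σ)

/-- `Z` is the zeta function of `X`: it is `∏_x (1 - N(x)^{-s})⁻¹` for `Re s > d` and meromorphic at all real
points `y ≤ d`. -/
structure IsZeta (X : Scheme.{0}) (d : ℕ) (Z : ℂ → ℂ) : Prop where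
  prod : ∀ s : ℂ, (d : ℝ) < s.re → Z s = ∏' x : Pt X, (1 - (nrm X x : ℂ) ^ (-s))⁻¹
  mero : ∀ y : ℝ, y ≤ d → MeromorphicAt Z (y : ℂ)

/-- The term `N(x)^{-kn}/k · cos(γu)/Γ(1 + u)`, `u = k log N(x) / log Y`. -/
noncomputable def term (X : Scheme.{0}) (n : ℤ) (γ Y : ℝ) (x : Pt X) (k : ℕ) : ℝ :=
  Real.cos (γ * (k * Real.log (nrm X x) / Real.log Y)) /
    (k * (nrm X x ^ n) ^ k * Real.Gamma (1 + k * Real.log (nrm X x) / Real.log Y))

/-- `V_n(Y)`, the sum over all closed points and `k ≥ 1` (here `k = i.2 + 1`). -/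
noncomputable def V (X : Scheme.{0}) (n : ℤ) (γ Y : ℝ) : ℝ :=
  ∑' i : Pt X × ℕ, term X n γ Y i.1 (i.2 + 1)

/-- `λ_γ`, the real part of `∫_0^∞ (e^{-t} - e^{iγt}/Γ(1 + t)) dt/t`. -/
noncomputable def lam (γ : ℝ) : ℝ := (∫ t in Ioi (0 : ℝ),
  (Complex.exp (-(t : ℂ)) -
    Complex.exp ((γ * t : ℝ) * Complex.I) * ((Real.Gamma (1 + t))⁻¹ : ℝ)) / t).re

/-- `V_n(Y) + ρ log log Y` is bounded for `Y → ∞`. -/
def Bounded (X : Scheme.{0}) (γ : ℝ) (n ρ : ℤ) : Prop :=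
  ∃ C : ℝ, ∀ᶠ Y : ℝ in atTop, |V X n γ Y + ρ * Real.log (Real.log Y)| ≤ C

theorem term_eq (X : Scheme.{0}) (n : ℤ) (γ Y : ℝ) (i : Pt X × ℕ) :
    Pool.Agent.V1194.LP.rt (nrm X) (n : ℝ) γ Y i = term X n γ Y i.1 (i.2 + 1) := by
  unfold Pool.Agent.V1194.LP.rt term
  rw [Real.rpow_intCast]

theorem V_eq (X : Scheme.{0}) (n : ℤ) (γ Y : ℝ) :
    ∑' i, Pool.Agent.V1194.LP.rt (nrm X) (n : ℝ) γ Y i = V X n γ Y :=
  tsum_congr fun i => term_eq X n γ Y i

theorem main (X : Scheme.{0}) (d : ℕ) (hX : Converges X d) (Z : ℂ → ℂ) (hZ : IsZeta X d Z) (γ : ℝ)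
    (hγ : Real.pi / 2 < γ) (n : ℤ) :
    (∀ Y : ℝ, 1 < Y → Summable fun i : Pt X × ℕ => |term X n γ Y i.1 (i.2 + 1)|) ∧
    ∃ (m : ℤ) (A : ℂ), A ≠ 0 ∧ meromorphicOrderAt Z n = m ∧
      Tendsto (fun s : ℂ => Z s / (s - n) ^ m) (𝓝[≠] (n : ℂ)) (𝓝 A) ∧
      (fun Y : ℝ => V X n γ Y - (Real.log ‖A‖ - m * (Real.log (Real.log Y) - lam γ))) =O[atTop]
        (fun Y : ℝ => 1 / Real.log Y) ∧
      (∀ ρ : ℤ, m = ρ ↔ Bounded X γ n ρ) ∧
      (∀ ρ : ℤ, ρ ≤ m ↔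
        ∃ C : ℝ, ∀ᶠ Y : ℝ in atTop, V X n γ Y + ρ * Real.log (Real.log Y) ≤ C) ∧
      (∀ ρ : ℤ, m ≤ ρ ↔
        ∃ C : ℝ, ∀ᶠ Y : ℝ in atTop, C ≤ V X n γ Y + ρ * Real.log (Real.log Y)) := by
  obtain ⟨h1, r, A, h2, h3, h4, h5, h6, h7, h8⟩ := Pool.Agent.V1194.LP.zeta_package
    (q := nrm X) (L := Z) (e := (d : ℝ)) (by exact_mod_cast hX.one_le) hX.two_le hX.summable (n : ℝ)
    (fun x hx => hZ.mero x hx.2) hZ.prod hγ
  simp only [V_eq, Complex.ofReal_intCast] at h3 h4 h5 h6 h7 h8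
  refine ⟨fun Y hY => (h1 Y hY).congr fun i => by rw [term_eq], r, A, h2, h3, h4, h5, h6, h7, h8⟩

/-- **The orders of `ζ_X(s)` at all integers from the closed points.** -/
theorem result (X : Scheme.{0}) (d : ℕ) (hX : Converges X d) (Z : ℂ → ℂ) (hZ : IsZeta X d Z) (γ : ℝ)
    (hγ : Real.pi / 2 < γ) :
    (∀ n : ℤ, (∀ Y : ℝ, 1 < Y → Summable fun i : Pt X × ℕ => |term X n γ Y i.1 (i.2 + 1)|) ∧
      ∃ (m : ℤ) (A : ℂ), A ≠ 0 ∧ meromorphicOrderAt Z n = m ∧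
        Tendsto (fun s : ℂ => Z s / (s - n) ^ m) (𝓝[≠] (n : ℂ)) (𝓝 A) ∧
        (fun Y : ℝ => V X n γ Y - (Real.log ‖A‖ - m * (Real.log (Real.log Y) - lam γ))) =O[atTop]
          (fun Y : ℝ => 1 / Real.log Y) ∧
        (∀ ρ : ℤ, m = ρ ↔ Bounded X γ n ρ) ∧
        (∀ ρ : ℤ, ρ ≤ m ↔
          ∃ C : ℝ, ∀ᶠ Y : ℝ in atTop, V X n γ Y + ρ * Real.log (Real.log Y) ≤ C) ∧
        (∀ ρ : ℤ, m ≤ ρ ↔
          ∃ C : ℝ, ∀ᶠ Y : ℝ in atTop, C ≤ V X n γ Y + ρ * Real.log (Real.log Y))) ∧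
    ∀ a : ℤ → ℤ, (∀ r : ℤ, meromorphicOrderAt Z ((d - r : ℤ) : ℂ) = (-a r : ℤ)) ↔
      ∀ r : ℤ, Bounded X γ (d - r) (-a r) := by
  refine ⟨main X d hX Z hZ γ hγ, fun a => forall_congr' fun r => ?_⟩
  obtain ⟨-, m, A, -, h3, -, -, h6, -, -⟩ := main X d hX Z hZ γ hγ (d - r)
  rw [h3, ← h6]
  exact_mod_cast Iff.rfl

end Pool.Agent.Results.MP_666bea_ag.OrdersFromPoints
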